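import Pool.Agent.H32.SZ.Def

set_option autoImplicit false

/-!
# [H32 SZ HX] The profile `H`, equal to `1/sin` beyond the equator

`H₁` from `exists_H` (H62/SS/ProfI) with `a = 4`, `b = 3`. `H₁ 0 = Fp H₁ (π/2) = Gf β T 4 3 0 = 1` and `deriv H₁ 0 = -Fp' H₁ (π/2) = 0`: the derivative of `Fp H₁` within
`Icc R (π/2)` at `π/2` is `β T (1 - 4 + 3) = 0` (as `hout'` in H62/SS/ProfL: `hasDerivAt_Gf`, `hasDerivAt_cot`, `UniqueDiffOn`). Glue (`glue3`, H62/SS/Glue) with `a = cos M < 0 = b`: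
`h y = 1/√(1-y²)` on `[cos M, 0]` (derivative `y/√(1-y²)^3`, `hasDerivAt_sqrt1` in ProfH), the tangent line of `h` at `cos M` for `y ≤ cos M` (slope `≤ 0`, so it is `≥ h (cos M) > 0`
there), `H₁` for `y ≥ 0` (derivative `deriv H₁`, continuous). `Fp H r = H (cos r) sin r = 1` for `r ∈ [π/2, M]` (`√(1 - cos² r) = sin r`).
-/

namespace Pool.Agent.H32.SZ

open MeasureTheory Set
open scoped Real
open Pool.Agent.H62.SS

private theorem hx_g {y : ℝ} (hy : y ^ 2 < 1) :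
    HasDerivAt (fun y : ℝ => 1 / √(1 - y ^ 2)) (y / √(1 - y ^ 2) ^ 3) y := by
  have hw := hasDerivAt_sqrt1 hy
  have hpos : 0 < √(1 - y ^ 2) := Real.sqrt_pos.2 (by linarith)
  have h := (hasDerivAt_const y (1 : ℝ)).fun_div hw hpos.ne'
  refine h.congr_deriv ?_
  field_simp
  ring

theorem exists_H2 {N : ℕ} (hN : 1 ≤ N) {R : ℝ} (h0 : 0 < R) (h1 : R < π / 2) {β : ℝ}
    (hβ : 0 ≤ β) (hm : β * Real.tan R / Real.sin R ^ 2 = gS N R) {M : ℝ} (hM : π / 2 < M)
    (hM' : M < π) :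
    ∃ H : ℝ → ℝ, ContDiff ℝ 1 H ∧ (∀ c ∈ Icc (-1 : ℝ) 1, 0 < H c) ∧
      (∀ r ∈ Icc 0 R, Fp H r = fS N r / fS N R) ∧
      (∀ r ∈ Icc R (π / 2), Fp H r = Gf β (Real.tan R) 4 3 (Real.cos r / Real.sin r)) ∧
      (∀ r ∈ Icc (π / 2) M, Fp H r = 1) := by
  have hpi := Real.pi_pos
  obtain ⟨H1, hH1, hpos1, hin1, hout1⟩ := exists_H hN h0 h1 (a := 4) (b := 3) hβ (by norm_num)
    (by norm_num) hm
  set T := Real.tan R with hT
  -- the value and the derivative at `0`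
  have hF : Fp H1 (π / 2) = 1 := by
    rw [hout1 (π / 2) ⟨h1.le, le_rfl⟩, Real.cos_pi_div_two, zero_div]
    unfold Gf
    norm_num
  have hval : H1 0 = 1 := by
    have h2 := hF
    unfold Fp at h2
    rwa [Real.cos_pi_div_two, Real.sin_pi_div_two, mul_one] at h2
  have hF' : Fp' H1 (π / 2) = 0 := by
    have hs : Real.sin (π / 2) ≠ 0 := by
      rw [Real.sin_pi_div_two]
      norm_num
    have h2 : HasDerivWithinAt (Fp H1) (Fp' H1 (π / 2)) (Icc R (π / 2)) (π / 2) :=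
      (hasDerivAt_Fp0 hH1 (π / 2)).hasDerivWithinAt
    have h3 : HasDerivWithinAt (Fp H1) (-(β * T *
      (1 - 4 * (1 - T * (Real.cos (π / 2) / Real.sin (π / 2))) +
        3 * (1 - T * (Real.cos (π / 2) / Real.sin (π / 2))) ^ 2)) * -(1 / Real.sin (π / 2) ^ 2))
        (Icc R (π / 2)) (π / 2) := by
      have h4 := HasDerivAt.comp (h₂ := Gf β T 4 3) (π / 2)
        (hasDerivAt_Gf β T 4 3 (Real.cos (π / 2) / Real.sin (π / 2))) (hasDerivAt_cot hs)
      exact h4.hasDerivWithinAt.congr (fun x hx => hout1 x hx) (hout1 (π / 2) ⟨h1.le, le_rfl⟩)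
    have h5 := (uniqueDiffOn_Icc h1 (π / 2) ⟨h1.le, le_rfl⟩).eq_deriv _ h2 h3
    rw [h5, Real.cos_pi_div_two, zero_div, mul_zero]
    norm_num
  have hder : deriv H1 0 = 0 := by
    have h2 := hF'
    unfold Fp' at h2
    rw [Real.cos_pi_div_two, Real.sin_pi_div_two] at h2
    linarith
  -- the point `cos M`
  set c := Real.cos M with hc
  have hc0 : c < 0 := Real.cos_neg_of_pi_div_two_lt_of_lt hM (by linarith)
  have hc1 : -1 < c := by
    have h2 : Real.cos π < Real.cos M :=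
      Real.cos_lt_cos_of_nonneg_of_le_pi (by linarith) le_rfl hM'
    rwa [Real.cos_pi] at h2
  have hsq : ∀ y : ℝ, c ≤ y → y ≤ 0 → y ^ 2 < 1 := fun y h2 h3 => by nlinarith
  have hgc : 0 < 1 / √(1 - c ^ 2) :=
    one_div_pos.2 (Real.sqrt_pos.2 (by linarith [hsq c le_rfl hc0.le]))
  have hgc' : c / √(1 - c ^ 2) ^ 3 ≤ 0 :=
    div_nonpos_of_nonpos_of_nonneg hc0.le (by positivity)
  obtain ⟨k, hk, k1, k2, k3⟩ := glue3 (a := c) (b := 0) hc0
    (f := fun y => 1 / √(1 - c ^ 2) + c / √(1 - c ^ 2) ^ 3 * (y - c))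
    (g := fun y => 1 / √(1 - y ^ 2)) (h := H1)
    (f' := fun _ => c / √(1 - c ^ 2) ^ 3) (g' := fun y => y / √(1 - y ^ 2) ^ 3) (h' := deriv H1)
    (by
      intro x _
      have h2 := (((hasDerivAt_id x).sub_const c).const_mul
        (c / √(1 - c ^ 2) ^ 3)).const_add (1 / √(1 - c ^ 2))
      simpa using h2)
    (fun x hx => hx_g (hsq x hx.1 hx.2))
    (fun x _ => (hH1.differentiable one_ne_zero x).hasDerivAt)
    continuousOn_const
    (by
      refine ContinuousOn.div continuousOn_id ?_ ?_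
      · exact Continuous.continuousOn (by fun_prop)
      · intro x hx
        exact pow_ne_zero 3 (Real.sqrt_pos.2 (by linarith [hsq x hx.1 hx.2])).ne')
    hH1.continuous_deriv_one.continuousOn
    (by simp) rfl (by simp [hval]) (by simp [hder])
  have hcos : ∀ r : ℝ, 0 ≤ r → r ≤ π / 2 → Fp k r = Fp H1 r := by
    intro r hr hr'
    unfold Fp
    rw [k3 (Real.cos r) (Real.cos_nonneg_of_neg_pi_div_two_le_of_le (by linarith) hr')]
  refine ⟨k, hk, ?_, ?_, ?_, ?_⟩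
  · intro y hy
    rcases le_total 0 y with h2 | h2
    · rw [k3 y h2]
      exact hpos1 y hy
    · rcases le_total c y with h3 | h3
      · rw [k2 y ⟨h3, h2⟩]
        exact one_div_pos.2 (Real.sqrt_pos.2 (by linarith [hsq y h3 h2]))
      · rw [k1 y h3]
        have h4 : 0 ≤ c / √(1 - c ^ 2) ^ 3 * (y - c) :=
          mul_nonneg_of_nonpos_of_nonpos hgc' (by linarith)
        show 0 < 1 / √(1 - c ^ 2) + c / √(1 - c ^ 2) ^ 3 * (y - c)
        linarith
  · intro r hr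
    rw [hcos r hr.1 (by linarith [hr.2])]
    exact hin1 r hr
  · intro r hr
    rw [hcos r (by linarith [hr.1]) hr.2]
    exact hout1 r hr
  · intro r hr
    have hs : 0 < Real.sin r :=
      Real.sin_pos_of_pos_of_lt_pi (by linarith [hr.1]) (by linarith [hr.2])
    have h2 : Real.cos r ≤ 0 :=
      Real.cos_nonpos_of_pi_div_two_le_of_le hr.1 (by linarith [hr.2])
    have h3 : c ≤ Real.cos r :=
      Real.cos_le_cos_of_nonneg_of_le_pi (by linarith [hr.1]) hM'.le hr.2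
    unfold Fp
    rw [k2 (Real.cos r) ⟨h3, h2⟩]
    show 1 / √(1 - Real.cos r ^ 2) * Real.sin r = 1
    rw [← Real.sin_sq, Real.sqrt_sq hs.le]
    field_simp

end Pool.Agent.H32.SZ
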