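import Pool.Agent.H62.SS.ProfE
import Pool.Agent.H62.SS.ParE

set_option autoImplicit false

/-!
# [H32 SZ DEF] Comparison profiles beyond the equator

`Prof2 N R γ m κ r₀ M H` is `Prof` of H62/SS/ProfD with `M` (`π/2 < M < π`) in place of `π/2` in `ge` and `strict`.
-/

namespace Pool.Agent.H32.SZ

open MeasureTheory Set
open scoped Real
open Pool.Agent.H62.SS

/-- the comparison profile for the ball of radius `R`, up to the radius `M` -/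
structure Prof2 (N : ℕ) (R γ m κ r₀ M : ℝ) (H : ℝ → ℝ) : Prop where
  contDiff : ContDiff ℝ 1 H
  pos : ∀ c ∈ Icc (-1 : ℝ) 1, 0 < H c
  gam_pos : 0 < γ
  m_pos : 0 < m
  kap_nonneg : 0 ≤ κ
  r0_pos : 0 < r₀
  r0_le : r₀ ≤ Real.pi / 2
  zero : γ * Fp H r₀ ^ 2 = m
  mono : ∀ t ∈ Ioo 0 r₀, 0 ≤ Fp' H t
  ge : ∀ t ∈ Icc r₀ M, m ≤ γ * Fp H t ^ 2
  eq : AA N γ m κ r₀ H R = -m * Real.sin R ^ N + κ * VS N R
  strict : ∀ ρ ∈ Icc 0 M, ρ ≠ R →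
    -m * Real.sin R ^ N + κ * VS N R < AA N γ m κ r₀ H ρ

/-- the requirements at the radius `R` for the parameter `lam` (with `a = 4`, `b = 3`) -/
structure Par2 (N : ℕ) (R lam : ℝ) : Prop where
  lam0 : 0 ≤ lam
  lam1 : lam < 1
  PPp : ∀ σ : ℝ, 0 ≤ σ → σ ≤ 1 → 0 < PP N lam 4 3 σ (Real.tan R ^ 2) (BS N R)
  MMp : ∀ r : ℝ, 0 < r → r < R →
    0 < MM N lam (Real.tan r / Real.tan R) (Real.tan R ^ 2) (BS N R) (BS N r)
  kap : 0 ≤ N * (1 + Real.tan R ^ 2) - BS N R ^ 2 - N * lam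
  far1 : (BS N R ^ 2 + N * (13 / 6 * Real.tan R ^ 2 + 49 / 36)) * Real.tan R ^ 2 / (N - 1) +
    1 / 10 ≤ N * (1 - lam) - BS N R ^ 2
  far2 : lam * Real.tan R * Real.sin R ^ N * (N + 1) < 1 / 10 * (1 - Real.sin R ^ (N + 1))

end Pool.Agent.H32.SZ
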