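import Pool.Agent.H62.SS.Poly

set_option autoImplicit false

/-!
# [H32 SZ EEZ] Certificates for the comparison with the ball of radius `R₀`, `tan² R₀ = q₀(N)`
-/

namespace Pool.Agent.H32.SZ

open Pool.Agent.H62.SS

noncomputable def EE (N lam q B y : ℝ) : ℝ :=
  N * (49 / 36) * (q + y ^ 2) -
    (49 / 36) * (B - (B - lam) / (49 / 36) * ((1 - y ^ 2) / (1 + q))) ^ 2 -
    N * y * ((49 / 36) * B - (B - lam))

def e2t0 : List (List ℤ) :=
  [[15997020079, -84336558, -83521], [-43738968000, -86632000, 0], [56794334192, -79375584, -78608], [0, 0, 0], [-4714744896, -18676608, -18496]]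

theorem e2c0 : chk2 e2t0 = true := by decide +kernel

theorem e2e0 (x s : ℝ) :
    112896000000 * (EE 2 0 (1/8) ((8583/8000) + s * ((43/40) - (8583/8000))) (0 + (1/2) * x) - 1 / 100) =
      ev2 e2t0 x s := by
  simp only [e2t0, ev2, ev1, evg, EE]
  push_cast
  ring

def e2t1 : List (List ℤ) :=
  [[24337641375, -269020750, -180625], [50990720800, -320089600, -231200], [28505864816, -191435232, -189584], [-18858979584, -74706432, -73984], [-4714744896, -18676608, -18496]]

theorem e2c1 : chk2 e2t1 = true := by decide +kernel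

theorem e2e1 (x s : ℝ) :
    112896000000 * (EE 2 0 (1/8) ((8583/8000) + s * ((43/40) - (8583/8000))) ((1/2) + (1/2) * x) - 1 / 100) =
      ev2 e2t1 x s := by
  simp only [e2t1, ev2, ev1, evg, EE]
  push_cast
  ring

theorem EE_2 {B y : ℝ} (hy : 0 ≤ y) (hy1 : y ≤ 1) (hL : (8583/8000) ≤ B) (hU : B ≤ (43/40)) :
    0 < EE 2 0 (1/8) B y := by
  obtain ⟨s, hs, hs1, rfl⟩ := exists_param hL hU (by norm_num)
  rcases le_total y (1/2) with hc | hc
  · have h := chk2_sound (q := (y - 0) / (1/2)) (by linarith) (by linarith) hs hs1 _ e2c0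
    rw [← e2e0] at h
    have e : (0 + (1/2) * ((y - 0) / (1/2))) = y := by ring
    rw [e] at h
    linarith
  · have h := chk2_sound (q := (y - (1/2)) / (1/2)) (by linarith) (by linarith) hs hs1 _ e2c1
    rw [← e2e1] at h
    have e : ((1/2) + (1/2) * ((y - (1/2)) / (1/2))) = y := by ring
    rw [e] at h
    linarith

def e3t0 : List (List ℤ) :=
  [[3557012143599, -34516083198, -104060401], [-11143496700000, -57903300000, 0], [20133153705312, -84168978624, -296726688], [0, 0, 0], [-2935931463936, -49841008128, -211527936]]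

theorem e3c0 : chk2 e3t0 = true := by decide +kernel

theorem e3e0 (x s : ℝ) :
    6350400000000 * (EE 3 (1/6) (1/4) ((4633/4000) + s * ((7/6) - (4633/4000))) (0 + 1 * x) - 1 / 100) =
      ev2 e3t0 x s := by
  simp only [e3t0, ev2, ev1, evg, EE]
  push_cast
  ring

theorem EE_3 {B y : ℝ} (hy : 0 ≤ y) (hy1 : y ≤ 1) (hL : (4633/4000) ≤ B) (hU : B ≤ (7/6)) :
    0 < EE 3 (1/6) (1/4) B y := by
  obtain ⟨s, hs, hs1, rfl⟩ := exists_param hL hU (by norm_num)
  have h := chk2_sound (q := (y - 0) / 1) (by linarith) (by linarith) hs hs1 _ e3c0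
  rw [← e3e0] at h
  have e : (0 + 1 * ((y - 0) / 1)) = y := by ring
  rw [e] at h
  linarith

def e4t0 : List (List ℤ) :=
  [[981009412544, -8670919488, -44435556], [-1841749476000, -16212924000, 0], [3443496765408, -18757691316, -109069092], [0, 0, 0], [-370599695361, -9960678378, -66928761]]

theorem e4c0 : chk2 e4t0 = true := by decide +kernel

theorem e4e0 (x s : ℝ) :
    777924000000 * (EE 4 (3/20) (1/3) ((3671/3000) + s * ((26/21) - (3671/3000))) (0 + 1 * x) - 1 / 100) =
      ev2 e4t0 x s := by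
  simp only [e4t0, ev2, ev1, evg, EE]
  push_cast
  ring

theorem EE_4 {B y : ℝ} (hy : 0 ≤ y) (hy1 : y ≤ 1) (hL : (3671/3000) ≤ B) (hU : B ≤ (26/21)) :
    0 < EE 4 (3/20) (1/3) B y := by
  obtain ⟨s, hs, hs1, rfl⟩ := exists_param hL hU (by norm_num)
  have h := chk2_sound (q := (y - 0) / 1) (by linarith) (by linarith) hs hs1 _ e4c0
  rw [← e4e0] at h
  have e : (0 + 1 * ((y - 0) / 1)) = y := by ring
  rw [e] at h
  linarith

def e5t0 : List (List ℤ) :=
  [[18037359375, -234316250, -2325625], [-24184930000, -388570000, 0], [39579083600, -392498400, -4465200], [0, 0, 0], [-3017964096, -160852608, -2143296]]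

theorem e5c0 : chk2 e5t0 = true := by decide +kernel

theorem e5e0 (x s : ℝ) :
    7056000000 * (EE 5 (1/5) (1/2) ((2689/2000) + s * ((11/8) - (2689/2000))) (0 + 1 * x) - 1 / 100) =
      ev2 e5t0 x s := by
  simp only [e5t0, ev2, ev1, evg, EE]
  push_cast
  ring

theorem EE_5 {B y : ℝ} (hy : 0 ≤ y) (hy1 : y ≤ 1) (hL : (2689/2000) ≤ B) (hU : B ≤ (11/8)) :
    0 < EE 5 (1/5) (1/2) B y := by
  obtain ⟨s, hs, hs1, rfl⟩ := exists_param hL hU (by norm_num)
  have h := chk2_sound (q := (y - 0) / 1) (by linarith) (by linarith) hs hs1 _ e5c0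
  rw [← e5e0] at h
  have e : (0 + 1 * ((y - 0) / 1)) = y := by ring
  rw [e] at h
  linarith

def e6t0 : List (List ℤ) :=
  [[1797468227775, -19266576750, -174900625], [-2609395236000, -36393084000, 0], [3981866564880, -30944976480, -335809200], [0, 0, 0], [-221524600896, -11951100288, -161188416]]

theorem e6c0 : chk2 e6t0 = true := by decide +kernel

theorem e6e0 (x s : ℝ) :
    571536000000 * (EE 6 (27/100) (1/2) ((2719/2000) + s * ((25/18) - (2719/2000))) (0 + 1 * x) - 1 / 100) =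
      ev2 e6t0 x s := by
  simp only [e6t0, ev2, ev1, evg, EE]
  push_cast
  ring

theorem EE_6 {B y : ℝ} (hy : 0 ≤ y) (hy1 : y ≤ 1) (hL : (2719/2000) ≤ B) (hU : B ≤ (25/18)) :
    0 < EE 6 (27/100) (1/2) B y := by
  obtain ⟨s, hs, hs1, rfl⟩ := exists_param hL hU (by norm_num)
  have h := chk2_sound (q := (y - 0) / 1) (by linarith) (by linarith) hs hs1 _ e6c0
  rw [← e6e0] at h
  have e : (0 + 1 * ((y - 0) / 1)) = y := by ring
  rw [e] at h
  linarith

def e7t0 : List (List ℤ) :=
  [[411438025, -3715250, -30625], [-644754250, -7803250, 0], [918981340, -5733840, -58800], [0, 0, 0], [-38340864, -2080512, -28224]]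

theorem e7c0 : chk2 e7t0 = true := by decide +kernel

theorem e7e0 (x s : ℝ) :
    110250000 * (EE 7 (17/50) (1/2) ((343/250) + s * ((7/5) - (343/250))) (0 + 1 * x) - 1 / 100) =
      ev2 e7t0 x s := by
  simp only [e7t0, ev2, ev1, evg, EE]
  push_cast
  ring

theorem EE_7 {B y : ℝ} (hy : 0 ≤ y) (hy1 : y ≤ 1) (hL : (343/250) ≤ B) (hU : B ≤ (7/5)) :
    0 < EE 7 (17/50) (1/2) B y := by
  obtain ⟨s, hs, hs1, rfl⟩ := exists_param hL hU (by norm_num)
  have h := chk2_sound (q := (y - 0) / 1) (by linarith) (by linarith) hs hs1 _ e7c0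
  rw [← e7e0] at h
  have e : (0 + 1 * ((y - 0) / 1)) = y := by ring
  rw [e] at h
  linarith

def e8t0 : List (List ℤ) :=
  [[231023409375, -1809046250, -13875625], [-383796028000, -4176172000, 0], [518090104400, -2702383200, -26641200], [0, 0, 0], [-16802381376, -927070848, -12787776]]

theorem e8c0 : chk2 e8t0 = true := by decide +kernel

theorem e8e0 (x s : ℝ) :
    53361000000 * (EE 8 (2/5) (1/2) ((691/500) + s * ((31/22) - (691/500))) (0 + 1 * x) - 1 / 100) =
      ev2 e8t0 x s := by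
  simp only [e8t0, ev2, ev1, evg, EE]
  push_cast
  ring

theorem EE_8 {B y : ℝ} (hy : 0 ≤ y) (hy1 : y ≤ 1) (hL : (691/500) ≤ B) (hU : B ≤ (31/22)) :
    0 < EE 8 (2/5) (1/2) B y := by
  obtain ⟨s, hs, hs1, rfl⟩ := exists_param hL hU (by norm_num)
  have h := chk2_sound (q := (y - 0) / 1) (by linarith) (by linarith) hs hs1 _ e8c0
  rw [← e8e0] at h
  have e : (0 + 1 * ((y - 0) / 1)) = y := by ring
  rw [e] at h
  linarith

def e9t0 : List (List ℤ) :=
  [[1595726775, -10799250, -75625], [-2806083000, -27027000, 0], [3592950480, -15634080, -145200], [0, 0, 0], [-91699776, -5056128, -69696]]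

theorem e9c0 : chk2 e9t0 = true := by decide +kernel

theorem e9e0 (x s : ℝ) :
    324000000 * (EE 9 (23/50) (1/2) ((1391/1000) + s * ((17/12) - (1391/1000))) (0 + 1 * x) - 1 / 100) =
      ev2 e9t0 x s := by
  simp only [e9t0, ev2, ev1, evg, EE]
  push_cast
  ring

theorem EE_9 {B y : ℝ} (hy : 0 ≤ y) (hy1 : y ≤ 1) (hL : (1391/1000) ≤ B) (hU : B ≤ (17/12)) :
    0 < EE 9 (23/50) (1/2) B y := by
  obtain ⟨s, hs, hs1, rfl⟩ := exists_param hL hU (by norm_num)
  have h := chk2_sound (q := (y - 0) / 1) (by linarith) (by linarith) hs hs1 _ e9c0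
  rw [← e9e0] at h
  have e : (0 + 1 * ((y - 0) / 1)) = y := by ring
  rw [e] at h
  linarith

def e10t0 : List (List ℤ) :=
  [[6597275979775, -39211116750, -255200625], [-12103675220000, -105831180000, 0], [14869909659280, -55356518880, -489985200], [0, 0, 0], [-307385971776, -17005292928, -235192896]]

theorem e10c0 : chk2 e10t0 = true := by decide +kernel

theorem e10e0 (x s : ℝ) :
    1192464000000 * (EE 10 (51/100) (1/2) ((2797/2000) + s * ((37/26) - (2797/2000))) (0 + 1 * x) - 1 / 100) =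
      ev2 e10t0 x s := by
  simp only [e10t0, ev2, ev1, evg, EE]
  push_cast
  ring

theorem EE_10 {B y : ℝ} (hy : 0 ≤ y) (hy1 : y ≤ 1) (hL : (2797/2000) ≤ B) (hU : B ≤ (37/26)) :
    0 < EE 10 (51/100) (1/2) B y := by
  obtain ⟨s, hs, hs1, rfl⟩ := exists_param hL hU (by norm_num)
  have h := chk2_sound (q := (y - 0) / 1) (by linarith) (by linarith) hs hs1 _ e10c0
  rw [← e10e0] at h
  have e : (0 + 1 * ((y - 0) / 1)) = y := by ring
  rw [e] at h
  linarith

def e11t0 : List (List ℤ) :=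
  [[21271006575, -111630750, -680625], [-40213388600, -323723400, 0], [47878374320, -154566720, -1306800], [0, 0, 0], [-825297984, -45505152, -627264]]

theorem e11c0 : chk2 e11t0 = true := by decide +kernel

theorem e11e0 (x s : ℝ) :
    3457440000 * (EE 11 (11/20) (1/2) ((281/200) + s * ((10/7) - (281/200))) (0 + 1 * x) - 1 / 100) =
      ev2 e11t0 x s := by
  simp only [e11t0, ev2, ev1, evg, EE]
  push_cast
  ring

theorem EE_11 {B y : ℝ} (hy : 0 ≤ y) (hy1 : y ≤ 1) (hL : (281/200) ≤ B) (hU : B ≤ (10/7)) :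
    0 < EE 11 (11/20) (1/2) B y := by
  obtain ⟨s, hs, hs1, rfl⟩ := exists_param hL hU (by norm_num)
  have h := chk2_sound (q := (y - 0) / 1) (by linarith) (by linarith) hs hs1 _ e11c0
  rw [← e11e0] at h
  have e : (0 + 1 * ((y - 0) / 1)) = y := by ring
  rw [e] at h
  linarith

def e12t0 : List (List ℤ) :=
  [[430047953775, -2031264750, -11730625], [-837755352000, -6283368000, 0], [967159593360, -2759355360, -22522800], [0, 0, 0], [-13959895104, -776967552, -10810944]]

theorem e12c0 : chk2 e12t0 = true := by decide +kernel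

theorem e12e0 (x s : ℝ) :
    63504000000 * (EE 12 (59/100) (1/2) ((2821/2000) + s * ((43/30) - (2821/2000))) (0 + 1 * x) - 1 / 100) =
      ev2 e12t0 x s := by
  simp only [e12t0, ev2, ev1, evg, EE]
  push_cast
  ring

theorem EE_12 {B y : ℝ} (hy : 0 ≤ y) (hy1 : y ≤ 1) (hL : (2821/2000) ≤ B) (hU : B ≤ (43/30)) :
    0 < EE 12 (59/100) (1/2) B y := by
  obtain ⟨s, hs, hs1, rfl⟩ := exists_param hL hU (by norm_num)
  have h := chk2_sound (q := (y - 0) / 1) (by linarith) (by linarith) hs hs1 _ e12c0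
  rw [← e12e0] at h
  have e : (0 + 1 * ((y - 0) / 1)) = y := by ring
  rw [e] at h
  linarith

def e13t0 : List (List ℤ) :=
  [[52248153775, -221177000, -1210000], [-103758382000, -728728000, 0], [117174343120, -296334720, -2323200], [0, 0, 0], [-1458017856, -80644608, -1115136]]

theorem e13c0 : chk2 e13t0 = true := by decide +kernel

theorem e13e0 (x s : ℝ) :
    7056000000 * (EE 13 (31/50) (1/2) ((2831/2000) + s * ((23/16) - (2831/2000))) (0 + 1 * x) - 1 / 100) =
      ev2 e13t0 x s := by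
  simp only [e13t0, ev2, ev1, evg, EE]
  push_cast
  ring

theorem EE_13 {B y : ℝ} (hy : 0 ≤ y) (hy1 : y ≤ 1) (hL : (2831/2000) ≤ B) (hU : B ≤ (23/16)) :
    0 < EE 13 (31/50) (1/2) B y := by
  obtain ⟨s, hs, hs1, rfl⟩ := exists_param hL hU (by norm_num)
  have h := chk2_sound (q := (y - 0) / 1) (by linarith) (by linarith) hs hs1 _ e13c0
  rw [← e13e0] at h
  have e : (0 + 1 * ((y - 0) / 1)) = y := by ring
  rw [e] at h
  linarith

theorem EE_big {N B y : ℝ} (hN : 14 ≤ N) (hy : 0 ≤ y) (hy1 : y ≤ 1) (hB : 1 ≤ B) (hB1 : B ≤ 3 / 2) :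
    0 < EE N (1 - 5 / N) (1 / 2) B y := by
  have h5 : 5 / N ≤ 5 / 14 := by gcongr
  have h5' : 0 < 5 / N := by positivity
  unfold EE
  obtain ⟨l, hl⟩ : ∃ l : ℝ, l = 1 - 5 / N := ⟨_, rfl⟩
  rw [← hl]
  have hl0 : 0 ≤ l := by linarith
  have hl1 : l ≤ 1 := by linarith
  obtain ⟨w, hw⟩ : ∃ w : ℝ, w = (B - l) / (49 / 36) * ((1 - y ^ 2) / (1 + 1 / 2)) := ⟨_, rfl⟩
  rw [← hw]
  have hy2 : 0 ≤ 1 - y ^ 2 := by nlinarith
  have hw0 : 0 ≤ w := by
    rw [hw]
    have : 0 ≤ B - l := by linarith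
    positivity
  have hw1 : w ≤ B := by
    rw [hw]
    have h6 : (1 - y ^ 2) / (1 + 1 / 2) ≤ 1 := by
      rw [div_le_one (by norm_num)]
      nlinarith
    have h7 : (B - l) / (49 / 36) ≤ B := by
      rw [div_le_iff₀ (by norm_num)]
      linarith
    have h8 : 0 ≤ (B - l) / (49 / 36) := by
      have : 0 ≤ B - l := by linarith
      positivity
    calc (B - l) / (49 / 36) * ((1 - y ^ 2) / (1 + 1 / 2)) ≤ (B - l) / (49 / 36) * 1 := by gcongr
      _ ≤ B := by linarith
  have h9 : (B - w) ^ 2 ≤ 9 / 4 := by nlinarith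
  have h10 : N * y * ((49 / 36) * B - (B - l)) ≤ N * y * (37 / 24) := by
    have : (49 / 36) * B - (B - l) ≤ 37 / 24 := by linarith
    have hNy : 0 ≤ N * y := by positivity
    exact mul_le_mul_of_nonneg_left this hNy
  have h11 : (6 : ℝ) / 25 ≤ (49 / 36) * (1 / 2 + y ^ 2) - y * (37 / 24) := by
    nlinarith [sq_nonneg (y - 111 / 196)]
  have h12 : N * (6 / 25) ≤ N * ((49 / 36) * (1 / 2 + y ^ 2) - y * (37 / 24)) := by
    have : (0 : ℝ) ≤ N := by linarith
    gcongr
  nlinarith

end Pool.Agent.H32.SZ
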