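import Pool.Agent.H32.SZ.Def

set_option autoImplicit false

/-!
# [H32 SZ FAR] The inequality beyond the equator

Write `T = tan R`, `q = T² ≤ 1`, `B = BS N R`, `1 ≤ B ≤ 1 + (N+1)/(N+3) q` (`BS_ge_one`, `BS_le_up1`, `up1`), `β = B/(1+q) ≤ 1`,
`K = N(1-lam) - B²`, `κ = (N(1+q) - B² - N lam)/q = N + K/q`, `c = B² + N(13/6 q + 49/36)`.

1. On `[R, π/2]`: `F = Fp H t = 1 + β s (1-s)²` with `y = T cos t/sin t ∈ [0,1]`, `s = 1 - y` (`Gf` with `a = 4`, `b = 3`: `1 - 2s + s² = (1-s)²`), so `F = 1 + β (1-y) y²`,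
   `1 ≤ F ≤ 7/6` (`(1-y) y² ≤ 4/27`), `F² - 1 ≤ (13/6) y²`. The derivative (uniqueness of the derivative on `Icc R (π/2)`, as `hout'` in H62/SS/ProfL) is
   `T F' = β y (3y-2) (y² + q)`, so `(T F')² ≤ B² y²` (`|(3y-2)(y²+q)| ≤ 1 + q` for `0 ≤ q ≤ 1`). With `hp_eq` (`hp = F'² + N F²/sin²`) and `q/sin² = q + y²`:
   `q (κ - hp) = K - (T F')² - N q (F²-1) - N F² y² ≥ K - c y²`, and `y² sin^N = q cos² sin^(N-2)`.
2. On `[π/2, M]`: `F = 1`, `F' = 0` (constant on the interval, uniqueness of the derivative), `q (κ - hp) = K - N y²`, `y² = q cos²/sin²`.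
3. `∫_a^b cos² sin^(N-2) = [cos sin^(N-1)/(N-1)]_a^b + 1/(N-1) ∫_a^b sin^N` (derivative of `cos t sin^(N-1) t`), so it is `≤ 1/(N-1) ∫_a^b sin^N` for `(a,b) = (R, π/2)` and `(π/2, ρ)`.
4. So `q ∫_R^ρ (κ - hp) sin^N ≥ (K - c q/(N-1)) W + (K - N q/(N-1)) ∫_{π/2}^ρ sin^N ≥ W/10`, `W = ∫_R^{π/2} sin^N ≥ ∫_R^{π/2} sin^N cos = (1 - sin^(N+1) R)/(N+1)`,
   by `hf1` (`c ≥ N`, so `K - N q/(N-1) ≥ 0` too).
5. `q · lam/T · sin^N R = lam T sin^N R < W/10` by `hf2`.
-/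

namespace Pool.Agent.H32.SZ

open MeasureTheory Set
open scoped Real
open Pool.Agent.H62.SS

private theorem int_cos2 (k : ℕ) (a b : ℝ) :
    ((k : ℝ) + 1) * ∫ t in a..b, Real.cos t ^ 2 * Real.sin t ^ k =
      Real.cos b * Real.sin b ^ (k + 1) - Real.cos a * Real.sin a ^ (k + 1) +
        ∫ t in a..b, Real.sin t ^ (k + 2) := by
  have hd : ∀ t ∈ uIcc a b, HasDerivAt (fun t => Real.cos t * Real.sin t ^ (k + 1))
      (((k : ℝ) + 1) * (Real.cos t ^ 2 * Real.sin t ^ k) - Real.sin t ^ (k + 2)) t := by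
    intro t _
    have h1 := (Real.hasDerivAt_cos t).fun_mul ((Real.hasDerivAt_sin t).fun_pow (k + 1))
    refine h1.congr_deriv ?_
    rw [Nat.add_sub_cancel]
    push_cast
    ring
  have hc1 : Continuous fun t : ℝ => ((k : ℝ) + 1) * (Real.cos t ^ 2 * Real.sin t ^ k) := by
    fun_prop
  have hc2 : Continuous fun t : ℝ => Real.sin t ^ (k + 2) := by fun_prop
  have h2 := intervalIntegral.integral_eq_sub_of_hasDerivAt hd
    ((hc1.sub hc2).intervalIntegrable a b)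
  rw [intervalIntegral.integral_sub (hc1.intervalIntegrable a b) (hc2.intervalIntegrable a b),
    intervalIntegral.integral_const_mul] at h2
  linarith

private theorem int_sin_cos (N : ℕ) (a b : ℝ) :
    ((N : ℝ) + 1) * ∫ t in a..b, Real.sin t ^ N * Real.cos t =
      Real.sin b ^ (N + 1) - Real.sin a ^ (N + 1) := by
  have hd : ∀ t ∈ uIcc a b, HasDerivAt (fun t => Real.sin t ^ (N + 1))
      (((N : ℝ) + 1) * (Real.sin t ^ N * Real.cos t)) t := by
    intro t _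
    have h1 := (Real.hasDerivAt_sin t).fun_pow (N + 1)
    refine h1.congr_deriv ?_
    rw [Nat.add_sub_cancel]
    push_cast
    ring
  have hc1 : Continuous fun t : ℝ => ((N : ℝ) + 1) * (Real.sin t ^ N * Real.cos t) := by
    fun_prop
  have h2 := intervalIntegral.integral_eq_sub_of_hasDerivAt hd (hc1.intervalIntegrable a b)
  rw [intervalIntegral.integral_const_mul] at h2
  exact h2

/-- the polynomial inequality on `[R, π/2]` -/
private theorem alg_near {q y β B Nr K lam : ℝ} (hq0 : 0 ≤ q) (hq1 : q ≤ 1) (hy0 : 0 ≤ y)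
    (hy1 : y ≤ 1) (hβ0 : 0 ≤ β) (hβ1 : β ≤ 1) (hB : B = β * (1 + q)) (hN : 0 ≤ Nr)
    (hK : K = Nr * (1 - lam) - B ^ 2) :
    K - (B ^ 2 + Nr * (13 / 6 * q + 49 / 36)) * y ^ 2 ≤
      (Nr * (1 + q) - B ^ 2 - Nr * lam) - (β * (y * (3 * y - 2)) * (y ^ 2 + q)) ^ 2 -
        Nr * ((1 + β * ((1 - y) * y ^ 2)) ^ 2 * (q + y ^ 2)) := by
  have hu0 : 0 ≤ (1 - y) * y ^ 2 := mul_nonneg (by linarith) (sq_nonneg y)
  have hu1 : (1 - y) * y ^ 2 ≤ 4 / 27 := by
    nlinarith [mul_nonneg (sq_nonneg (y - 2 / 3)) (by linarith : (0 : ℝ) ≤ y + 1 / 3)]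
  have hu2 : (1 - y) * y ^ 2 ≤ y ^ 2 := by nlinarith [mul_nonneg hy0 (sq_nonneg y)]
  set u := β * ((1 - y) * y ^ 2) with hu
  have hv0 : 0 ≤ u := mul_nonneg hβ0 hu0
  have hv1 : u ≤ 4 / 27 := by
    calc u ≤ 1 * ((1 - y) * y ^ 2) := mul_le_mul_of_nonneg_right hβ1 hu0
      _ ≤ 4 / 27 := by linarith
  have hv2 : u ≤ y ^ 2 := by
    calc u ≤ 1 * ((1 - y) * y ^ 2) := mul_le_mul_of_nonneg_right hβ1 hu0
      _ ≤ y ^ 2 := by linarith
  have hF1 : (1 + u) ^ 2 - 1 ≤ 13 / 6 * y ^ 2 := by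
    have : (1 + u) ^ 2 - 1 = u * (2 + u) := by ring
    rw [this]
    calc u * (2 + u) ≤ y ^ 2 * (2 + 4 / 27) :=
          mul_le_mul hv2 (by linarith) (by linarith) (sq_nonneg y)
      _ ≤ 13 / 6 * y ^ 2 := by nlinarith [sq_nonneg y]
  have hF2 : (1 + u) ^ 2 ≤ 49 / 36 := by nlinarith
  -- the derivative
  have ha : |(3 * y - 2) * (y ^ 2 + q)| ≤ 1 + q := by
    have hyy : y ^ 2 ≤ 1 := by nlinarith
    rw [abs_le]
    constructor
    · rcases le_total y (2 / 3) with h | h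
      · have h3 : (2 - 3 * y) * y ^ 2 + (1 - 3 * y) * q ≤ 1 := by
          rcases le_total y (1 / 3) with h4 | h4
          · have h5 : (1 - 3 * y) * q ≤ (1 - 3 * y) * 1 :=
              mul_le_mul_of_nonneg_left hq1 (by linarith)
            nlinarith [mul_nonneg hy0 (by linarith : (0 : ℝ) ≤ 2 - 3 * y), mul_nonneg hy0 hy0]
          · have h5 : (1 - 3 * y) * q ≤ 0 := mul_nonpos_of_nonpos_of_nonneg (by linarith) hq0
            nlinarith [mul_nonneg (by linarith : (0 : ℝ) ≤ 2 - 3 * y) (by linarith : (0 : ℝ) ≤ 1 - y ^ 2)]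
        nlinarith
      · have : 0 ≤ (3 * y - 2) * (y ^ 2 + q) := mul_nonneg (by linarith) (by positivity)
        linarith
    · calc (3 * y - 2) * (y ^ 2 + q) ≤ 1 * (y ^ 2 + q) :=
            mul_le_mul_of_nonneg_right (by linarith) (by positivity)
        _ ≤ 1 + q := by linarith
  have hD : (β * (y * (3 * y - 2)) * (y ^ 2 + q)) ^ 2 ≤ B ^ 2 * y ^ 2 := by
    have h3 : β * (y * (3 * y - 2)) * (y ^ 2 + q) = β * y * ((3 * y - 2) * (y ^ 2 + q)) := by
      ring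
    have h4 : ((3 * y - 2) * (y ^ 2 + q)) ^ 2 ≤ (1 + q) ^ 2 := by
      rw [← sq_abs]
      exact pow_le_pow_left₀ (abs_nonneg _) ha 2
    rw [h3, mul_pow, hB]
    calc (β * y) ^ 2 * ((3 * y - 2) * (y ^ 2 + q)) ^ 2 ≤ (β * y) ^ 2 * (1 + q) ^ 2 :=
          mul_le_mul_of_nonneg_left h4 (sq_nonneg _)
      _ = (β * (1 + q)) ^ 2 * y ^ 2 := by ring
  have e1 : Nr * (q * ((1 + u) ^ 2 - 1)) ≤ Nr * (q * (13 / 6 * y ^ 2)) :=
    mul_le_mul_of_nonneg_left (mul_le_mul_of_nonneg_left hF1 hq0) hN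
  have e2 : Nr * ((1 + u) ^ 2 * y ^ 2) ≤ Nr * (49 / 36 * y ^ 2) :=
    mul_le_mul_of_nonneg_left (mul_le_mul_of_nonneg_right hF2 (sq_nonneg y)) hN
  rw [hK]
  nlinarith

theorem far_pos {N : ℕ} (hN : 2 ≤ N) {R : ℝ} (h0 : 0 < R) (h1 : R < π / 2)
    (hq : Real.tan R ^ 2 ≤ 1) {lam : ℝ} (hl0 : 0 ≤ lam) (hl1 : lam < 1)
    (hf1 : (BS N R ^ 2 + N * (13 / 6 * Real.tan R ^ 2 + 49 / 36)) * Real.tan R ^ 2 / (N - 1) +
      1 / 10 ≤ N * (1 - lam) - BS N R ^ 2)
    (hf2 : lam * Real.tan R * Real.sin R ^ N * (N + 1) < 1 / 10 * (1 - Real.sin R ^ (N + 1)))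
    {H : ℝ → ℝ} (hH : ContDiff ℝ 1 H) {M : ℝ} (hM : π / 2 < M) (hM' : M < π)
    (hout : ∀ r ∈ Icc R (π / 2), Fp H r = Gf (BS N R / (1 + Real.tan R ^ 2)) (Real.tan R) 4 3
      (Real.cos r / Real.sin r))
    (hfar : ∀ r ∈ Icc (π / 2) M, Fp H r = 1) {ρ : ℝ} (hρ : ρ ∈ Icc (π / 2) M) :
    0 < lam / Real.tan R * (Real.sin ρ ^ N - Real.sin R ^ N) +
      ∫ t in R..ρ, ((N * (1 + Real.tan R ^ 2) - BS N R ^ 2 - N * lam) / Real.tan R ^ 2 -
        hp N H t) * Real.sin t ^ N := by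
  have hpi := Real.pi_pos
  have hT0 : 0 < Real.tan R := tan_pos1 h0 h1
  set T := Real.tan R with hT
  have hB1 : 1 ≤ BS N R := BS_ge_one N h0 h1
  have hBup : BS N R ≤ up1 N (T ^ 2) := BS_le_up1 N h0 h1
  have hN2 : (2 : ℝ) ≤ N := by exact_mod_cast hN
  set B := BS N R with hB
  have hq0 : 0 < T ^ 2 := by positivity
  have hBle : B ≤ 1 + T ^ 2 := by
    refine hBup.trans ?_
    unfold up1
    have : ((N : ℝ) + 1) * T ^ 2 / (N + 3) ≤ T ^ 2 := by
      rw [div_le_iff₀ (by linarith)]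
      nlinarith
    linarith
  set β := B / (1 + T ^ 2) with hβ
  have hβ0 : 0 ≤ β := by positivity
  have hβ1 : β ≤ 1 := by rw [hβ, div_le_one (by positivity)]; exact hBle
  have hBβ : B = β * (1 + T ^ 2) := by rw [hβ]; field_simp
  -- derivatives
  have hout' : ∀ r ∈ Icc R (π / 2), Fp' H r = β * T *
      (1 - 4 * (1 - T * (Real.cos r / Real.sin r)) +
        3 * (1 - T * (Real.cos r / Real.sin r)) ^ 2) * (1 / Real.sin r ^ 2) := by
    intro r hr
    have hs : Real.sin r ≠ 0 :=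
      (Real.sin_pos_of_pos_of_lt_pi (by linarith [hr.1]) (by linarith [hr.2])).ne'
    have h2 : HasDerivWithinAt (Fp H) (Fp' H r) (Icc R (π / 2)) r :=
      (hasDerivAt_Fp0 hH r).hasDerivWithinAt
    have h3 : HasDerivWithinAt (Fp H) (-(β * T *
      (1 - 4 * (1 - T * (Real.cos r / Real.sin r)) +
        3 * (1 - T * (Real.cos r / Real.sin r)) ^ 2)) * -(1 / Real.sin r ^ 2))
        (Icc R (π / 2)) r := by
      have h4 := HasDerivAt.comp (h₂ := Gf β T 4 3) r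
        (hasDerivAt_Gf β T 4 3 (Real.cos r / Real.sin r)) (hasDerivAt_cot hs)
      exact h4.hasDerivWithinAt.congr (fun x hx => hout x hx) (hout r hr)
    have h5 := (uniqueDiffOn_Icc h1 r hr).eq_deriv _ h2 h3
    rw [h5]
    ring
  have hfar' : ∀ r ∈ Icc (π / 2) M, Fp' H r = 0 := by
    intro r hr
    have h2 : HasDerivWithinAt (Fp H) (Fp' H r) (Icc (π / 2) M) r :=
      (hasDerivAt_Fp0 hH r).hasDerivWithinAt
    have h3 : HasDerivWithinAt (Fp H) 0 (Icc (π / 2) M) r :=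
      (hasDerivWithinAt_const r (Icc (π / 2) M) (1 : ℝ)).congr (fun x hx => hfar x hx)
        (hfar r hr)
    exact (uniqueDiffOn_Icc hM r hr).eq_deriv _ h2 h3
  obtain ⟨k, rfl⟩ : ∃ k, N = k + 2 := ⟨N - 2, by omega⟩
  set Nr : ℝ := ((k + 2 : ℕ) : ℝ) with hNr
  have hNk : Nr = (k : ℝ) + 2 := by rw [hNr]; push_cast; ring
  have hNr0 : 0 ≤ Nr := by linarith
  set K := Nr * (1 - lam) - B ^ 2 with hK
  set c := B ^ 2 + Nr * (13 / 6 * T ^ 2 + 49 / 36) with hc
  set κ := (Nr * (1 + T ^ 2) - B ^ 2 - Nr * lam) / T ^ 2 with hκ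
  have hκq : T ^ 2 * κ = Nr * (1 + T ^ 2) - B ^ 2 - Nr * lam := by
    rw [hκ]; field_simp
  have hcN : Nr ≤ c := by
    rw [hc]
    nlinarith [sq_nonneg B, mul_nonneg hNr0 hq0.le]
  have hk1 : (0 : ℝ) < (k : ℝ) + 1 := by positivity
  have hf1' : c * T ^ 2 / ((k : ℝ) + 1) + 1 / 10 ≤ K := by
    have e : Nr - 1 = (k : ℝ) + 1 := by rw [hNk]; ring
    rw [← e]
    exact hf1
  -- the pointwise bounds
  have key1 : ∀ t ∈ Icc R (π / 2), K * Real.sin t ^ (k + 2) -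
      c * T ^ 2 * (Real.cos t ^ 2 * Real.sin t ^ k) ≤
      T ^ 2 * ((κ - hp (k + 2) H t) * Real.sin t ^ (k + 2)) := by
    intro t ht
    have hs : 0 < Real.sin t :=
      Real.sin_pos_of_pos_of_lt_pi (by linarith [ht.1]) (by linarith [ht.2])
    have hco : 0 ≤ Real.cos t :=
      Real.cos_nonneg_of_neg_pi_div_two_le_of_le (by linarith [ht.1]) ht.2
    set y := T * (Real.cos t / Real.sin t) with hy
    have hy0 : 0 ≤ y := by positivity
    have hy1 : y ≤ 1 := by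
      have hsR := sin_pos1 h0 h1
      have hcR := cos_pos1 h0.le h1
      have h6 : Real.cos t / Real.sin t ≤ Real.cos R / Real.sin R := by
        have h7 : Real.cos t ≤ Real.cos R :=
          Real.cos_le_cos_of_nonneg_of_le_pi h0.le (by linarith [ht.2]) ht.1
        have h8 : Real.sin R ≤ Real.sin t :=
          Real.sin_le_sin_of_le_of_le_pi_div_two (by linarith) ht.2 ht.1
        have h9 : 0 ≤ Real.cos R := hcR.le
        gcongr
      rw [cot_eq h0 h1, ← hT] at h6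
      have : T * (Real.cos t / Real.sin t) ≤ T * (1 / T) := by gcongr
      rw [mul_one_div_cancel hT0.ne'] at this
      exact this
    have hsc : Real.sin t ^ 2 + Real.cos t ^ 2 = 1 := Real.sin_sq_add_cos_sq t
    have hqs : T ^ 2 * (1 / Real.sin t ^ 2) = T ^ 2 + y ^ 2 := by
      rw [hy]
      field_simp
      linarith
    have hF : Fp H t = 1 + β * ((1 - y) * y ^ 2) := by
      rw [hout t ht]
      unfold Gf
      rw [← hy]
      ring
    have hF' : T * Fp' H t = β * (y * (3 * y - 2)) * (y ^ 2 + T ^ 2) := by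
      rw [hout' t ht, ← hy]
      have : T * (β * T * (1 - 4 * (1 - y) + 3 * (1 - y) ^ 2) * (1 / Real.sin t ^ 2)) =
          β * (y * (3 * y - 2)) * (T ^ 2 * (1 / Real.sin t ^ 2)) := by ring
      rw [this, hqs]
      ring
    have halg := alg_near (lam := lam) (K := K) hq0.le hq hy0 hy1 hβ0 hβ1 hBβ hNr0 hK
    have hhp : T ^ 2 * hp (k + 2) H t = (T * Fp' H t) ^ 2 +
        Nr * (Fp H t ^ 2 * (T ^ 2 * (1 / Real.sin t ^ 2))) := by
      rw [hp_eq (k + 2) H hs.ne', ← hNr]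
      ring
    have hmain : K - c * y ^ 2 ≤ T ^ 2 * (κ - hp (k + 2) H t) := by
      rw [mul_sub, hκq, hhp, hF', hF, hqs]
      calc K - c * y ^ 2 ≤ _ := halg
        _ = _ := by ring
    have hys : y ^ 2 * Real.sin t ^ (k + 2) = T ^ 2 * (Real.cos t ^ 2 * Real.sin t ^ k) := by
      rw [hy, mul_pow, div_pow, pow_add]
      field_simp
    calc K * Real.sin t ^ (k + 2) - c * T ^ 2 * (Real.cos t ^ 2 * Real.sin t ^ k)
        = (K - c * y ^ 2) * Real.sin t ^ (k + 2) := by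
          linear_combination c * hys
      _ ≤ (T ^ 2 * (κ - hp (k + 2) H t)) * Real.sin t ^ (k + 2) :=
          mul_le_mul_of_nonneg_right hmain (by positivity)
      _ = T ^ 2 * ((κ - hp (k + 2) H t) * Real.sin t ^ (k + 2)) := by ring
  have key2 : ∀ t ∈ Icc (π / 2) ρ, K * Real.sin t ^ (k + 2) -
      Nr * T ^ 2 * (Real.cos t ^ 2 * Real.sin t ^ k) ≤
      T ^ 2 * ((κ - hp (k + 2) H t) * Real.sin t ^ (k + 2)) := by
    intro t ht
    have htM : t ∈ Icc (π / 2) M := ⟨ht.1, ht.2.trans hρ.2⟩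
    have hs : 0 < Real.sin t :=
      Real.sin_pos_of_pos_of_lt_pi (by linarith [htM.1]) (by linarith [htM.2])
    have hsc : Real.sin t ^ 2 + Real.cos t ^ 2 = 1 := Real.sin_sq_add_cos_sq t
    have hhp : hp (k + 2) H t = Nr * (1 / Real.sin t ^ 2) := by
      rw [hp_eq (k + 2) H hs.ne', hfar' t htM, hfar t htM, ← hNr]
      ring
    have hc2 : Real.cos t ^ 2 = 1 - Real.sin t ^ 2 := by linarith
    refine le_of_eq ?_
    have e1 : T ^ 2 * ((κ - hp (k + 2) H t) * Real.sin t ^ (k + 2)) =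
        (T ^ 2 * κ) * Real.sin t ^ (k + 2) - T ^ 2 * (Nr * Real.sin t ^ k) := by
      rw [hhp]
      have : Nr * (1 / Real.sin t ^ 2) * Real.sin t ^ (k + 2) = Nr * Real.sin t ^ k := by
        rw [pow_add]
        field_simp
      rw [sub_mul, this]
      ring
    rw [e1, hκq, hc2, hK]
    ring
  -- integrals
  have hcs : Continuous fun t : ℝ => Real.sin t ^ (k + 2) := by fun_prop
  have hcc : Continuous fun t : ℝ => Real.cos t ^ 2 * Real.sin t ^ k := by fun_prop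
  have hch : Continuous fun t : ℝ => (κ - hp (k + 2) H t) * Real.sin t ^ (k + 2) :=
    (continuous_const.sub (continuous_hp0 (k + 2) hH)).mul (Real.continuous_sin.pow (k + 2))
  have hlow : ∀ (a b d : ℝ), a ≤ b → (∀ t ∈ Icc a b, K * Real.sin t ^ (k + 2) -
      d * T ^ 2 * (Real.cos t ^ 2 * Real.sin t ^ k) ≤
      T ^ 2 * ((κ - hp (k + 2) H t) * Real.sin t ^ (k + 2))) →
      K * (∫ t in a..b, Real.sin t ^ (k + 2)) -
        d * T ^ 2 * (∫ t in a..b, Real.cos t ^ 2 * Real.sin t ^ k) ≤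
      T ^ 2 * ∫ t in a..b, (κ - hp (k + 2) H t) * Real.sin t ^ (k + 2) := by
    intro a b d hab hkey
    have hi1 : IntervalIntegrable (fun t : ℝ => K * Real.sin t ^ (k + 2)) volume a b :=
      (hcs.const_mul K).intervalIntegrable a b
    have hi2 : IntervalIntegrable (fun t : ℝ => d * T ^ 2 * (Real.cos t ^ 2 * Real.sin t ^ k))
      volume a b := (hcc.const_mul (d * T ^ 2)).intervalIntegrable a b
    rw [← intervalIntegral.integral_const_mul, ← intervalIntegral.integral_const_mul,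
      ← intervalIntegral.integral_const_mul, ← intervalIntegral.integral_sub hi1 hi2]
    exact intervalIntegral.integral_mono_on hab (hi1.sub hi2)
      ((hch.const_mul (T ^ 2)).intervalIntegrable a b) hkey
  have hA := hlow R (π / 2) c h1.le key1
  have hBB := hlow (π / 2) ρ Nr hρ.1 key2
  have hadd : (∫ t in R..(π / 2), (κ - hp (k + 2) H t) * Real.sin t ^ (k + 2)) +
      (∫ t in (π / 2)..ρ, (κ - hp (k + 2) H t) * Real.sin t ^ (k + 2)) =
      ∫ t in R..ρ, (κ - hp (k + 2) H t) * Real.sin t ^ (k + 2) :=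
    intervalIntegral.integral_add_adjacent_intervals (hch.intervalIntegrable _ _)
      (hch.intervalIntegrable _ _)
  have hI1 := int_cos2 k R (π / 2)
  have hI2 := int_cos2 k (π / 2) ρ
  rw [Real.cos_pi_div_two, zero_mul] at hI1 hI2
  have hsR := sin_pos1 h0 h1
  have hcR := cos_pos1 h0.le h1
  have hsρ : 0 < Real.sin ρ :=
    Real.sin_pos_of_pos_of_lt_pi (by linarith [hρ.1]) (by linarith [hρ.2])
  have hcρ : Real.cos ρ ≤ 0 :=
    Real.cos_nonpos_of_pi_div_two_le_of_le hρ.1 (by linarith [hρ.2])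
  set W := ∫ t in R..(π / 2), Real.sin t ^ (k + 2) with hW
  set J := ∫ t in (π / 2)..ρ, Real.sin t ^ (k + 2) with hJ
  set C1 := ∫ t in R..(π / 2), Real.cos t ^ 2 * Real.sin t ^ k with hC1
  set C2 := ∫ t in (π / 2)..ρ, Real.cos t ^ 2 * Real.sin t ^ k with hC2
  have hC1le : C1 ≤ W / ((k : ℝ) + 1) := by
    rw [le_div_iff₀ hk1]
    have : 0 ≤ Real.cos R * Real.sin R ^ (k + 1) := by positivity
    linarith
  have hC2le : C2 ≤ J / ((k : ℝ) + 1) := by
    rw [le_div_iff₀ hk1]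
    have : Real.cos ρ * Real.sin ρ ^ (k + 1) ≤ 0 :=
      mul_nonpos_of_nonpos_of_nonneg hcρ (by positivity)
    linarith
  have hJ0 : 0 ≤ J := by
    refine intervalIntegral.integral_nonneg hρ.1 fun t ht => ?_
    have hs : 0 < Real.sin t :=
      Real.sin_pos_of_pos_of_lt_pi (by linarith [ht.1]) (by linarith [ht.2, hρ.2])
    positivity
  have hWlow : 1 - Real.sin R ^ (k + 2 + 1) ≤ (Nr + 1) * W := by
    have h3 := int_sin_cos (k + 2) R (π / 2)
    rw [Real.sin_pi_div_two, one_pow, ← hNr] at h3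
    rw [← h3]
    refine mul_le_mul_of_nonneg_left ?_ (by linarith)
    refine intervalIntegral.integral_mono_on h1.le
      ((by fun_prop : Continuous fun t : ℝ => Real.sin t ^ (k + 2) *
        Real.cos t).intervalIntegrable _ _) (hcs.intervalIntegrable _ _) fun t ht => ?_
    have hs : 0 < Real.sin t :=
      Real.sin_pos_of_pos_of_lt_pi (by linarith [ht.1]) (by linarith [ht.2])
    have := Real.cos_le_one t
    have h4 : 0 ≤ Real.sin t ^ (k + 2) := by positivity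
    nlinarith
  have hW0 : 0 < W := by
    have h3 : Real.sin R ^ (k + 2 + 1) < 1 := by
      refine pow_lt_one₀ hsR.le ?_ (by omega)
      rw [← Real.sin_pi_div_two]
      exact Real.sin_lt_sin_of_lt_of_le_pi_div_two (by linarith) le_rfl h1
    by_contra h
    have : (Nr + 1) * W ≤ 0 := mul_nonpos_of_nonneg_of_nonpos (by linarith) (not_lt.1 h)
    linarith
  have hcq : 0 ≤ c * T ^ 2 := mul_nonneg (hNr0.trans hcN) hq0.le
  have hNq : 0 ≤ Nr * T ^ 2 := mul_nonneg hNr0 hq0.le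
  have g1 : W / 10 ≤ K * W - c * T ^ 2 * C1 := by
    have h3 : c * T ^ 2 * C1 ≤ c * T ^ 2 * (W / ((k : ℝ) + 1)) :=
      mul_le_mul_of_nonneg_left hC1le hcq
    have h4 : c * T ^ 2 * (W / ((k : ℝ) + 1)) = c * T ^ 2 / ((k : ℝ) + 1) * W := by ring
    have h5 : (c * T ^ 2 / ((k : ℝ) + 1) + 1 / 10) * W ≤ K * W :=
      mul_le_mul_of_nonneg_right hf1' hW0.le
    linarith
  have g2 : 0 ≤ K * J - Nr * T ^ 2 * C2 := by
    have h3 : Nr * T ^ 2 * C2 ≤ Nr * T ^ 2 * (J / ((k : ℝ) + 1)) :=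
      mul_le_mul_of_nonneg_left hC2le hNq
    have h4 : Nr * T ^ 2 * (J / ((k : ℝ) + 1)) ≤ c * T ^ 2 * (J / ((k : ℝ) + 1)) := by
      refine mul_le_mul_of_nonneg_right ?_ (by positivity)
      exact mul_le_mul_of_nonneg_right hcN hq0.le
    have h6 : c * T ^ 2 * (J / ((k : ℝ) + 1)) = c * T ^ 2 / ((k : ℝ) + 1) * J := by ring
    have h5 : (c * T ^ 2 / ((k : ℝ) + 1) + 1 / 10) * J ≤ K * J :=
      mul_le_mul_of_nonneg_right hf1' hJ0
    linarith
  set I := ∫ t in R..ρ, (κ - hp (k + 2) H t) * Real.sin t ^ (k + 2) with hI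
  have hIlow : W / 10 ≤ T ^ 2 * I := by
    rw [← hadd, mul_add]
    linarith
  have hfin : lam * T * Real.sin R ^ (k + 2) < W / 10 := by
    have h3 : lam * T * Real.sin R ^ (k + 2) * (Nr + 1) < W / 10 * (Nr + 1) := by
      calc lam * T * Real.sin R ^ (k + 2) * (Nr + 1) < 1 / 10 * (1 - Real.sin R ^ (k + 2 + 1)) :=
            hf2
        _ ≤ W / 10 * (Nr + 1) := by linarith
    exact lt_of_mul_lt_mul_right h3 (by linarith)
  have hlT : T ^ 2 * (lam / T * (Real.sin ρ ^ (k + 2) - Real.sin R ^ (k + 2))) =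
      lam * T * Real.sin ρ ^ (k + 2) - lam * T * Real.sin R ^ (k + 2) := by
    field_simp
  have hpos : 0 < T ^ 2 * (lam / T * (Real.sin ρ ^ (k + 2) - Real.sin R ^ (k + 2)) + I) := by
    rw [mul_add, hlT]
    have : 0 ≤ lam * T * Real.sin ρ ^ (k + 2) := by positivity
    linarith
  exact (mul_pos_iff_of_pos_left hq0).1 hpos

end Pool.Agent.H32.SZ
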