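import Pool.Agent.H62.SS.Sph

set_option autoImplicit false

/-!
# [H32 SZ KN] The two conditions: small volume or perimeter, and thin
-/

namespace Pool.Agent.H32.SZ

open scoped ENNReal
open MeasureTheory Set
open Pool.Agent.H62.WS (sg)
open Pool.Agent.H62.SS

/-- `k = 9, 5, 4, 3` for `n = 3, 4, 5, ≥ 6` -/
def kN (n : ℕ) : ℕ := if n = 3 then 9 else if n = 4 then 5 else if n = 5 then 4 else 3

/-- the volume or the perimeter is at most that of a geodesic ball of radius `S ∈ (0, π/2)` with `k sin² S ≤ 1` -/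
def Small {n : ℕ} (Ω : Set (Sp n)) : Prop :=
  ∃ (p : Sp n) (S : ℝ), 0 < S ∧ S < Real.pi / 2 ∧ (kN n : ℝ) * Real.sin S ^ 2 ≤ 1 ∧
    (sg (n + 1) Ω ≤ sg (n + 1) (gball p S) ∨ bs n (frontier Ω) ≤ bs n (frontier (gball p S)))

/-- `(24n)^3 |Ω| ≤ |∂Ω|`, with the measure `bs n` of a great sphere as a factor on the left and the total mass of
`sg n` as a factor on the right (both are `|S^(n-1)|`) -/
def Thin {n : ℕ} (Ω : Set (Sp n)) : Prop :=
  ∃ p : Sp n, (24 * (n : ℝ≥0∞)) ^ 3 * (sg (n + 1) Ω * bs n (frontier (gball p (Real.pi / 2)))) ≤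
    sg n univ * bs n (frontier Ω)

end Pool.Agent.H32.SZ
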