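import Pool.Agent.H32.SZ.ProfZ
import Pool.Agent.H32.SZ.EEz

set_option autoImplicit false

/-!
# [H32 SZ LT] Comparison with the ball of radius `R₀`, `tan² R₀ = qN N`
-/

namespace Pool.Agent.H32.SZ

open MeasureTheory Set Filter
open scoped Real
open Pool.Agent.H62.SS

theorem large_ineq {N : ℕ} (hN : 2 ≤ N) {R₀ : ℝ} (hR₀ : 0 < R₀) (hR₀' : R₀ < π / 2) {m X : ℝ}
    (hm0 : 0 < m) (hX : 1 ≤ X)
    (hE : ∀ c : ℝ, 0 ≤ c → c ≤ 1 / Real.tan R₀ →
      0 < N * X * (1 + c ^ 2) -
        X * (gS N R₀ - m / X * (1 - Real.sin R₀ ^ 2 * (1 + c ^ 2))) ^ 2 -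
        N * c * (X * gS N R₀ - m)) {R : ℝ} (h0 : R₀ < R) (h1 : R < π / 2) :
    (gS N R₀ - gS N R) * X <
      m * (1 - (Real.sin R₀ / Real.sin R) ^ N) := by
  have hpi := Real.pi_pos
  have hX0 : 0 < X := by linarith
  set γ := gS N R₀ with hγdef
  set s1 := Real.sin R₀ with hs1
  have hs1pos : 0 < s1 := Real.sin_pos_of_pos_of_lt_pi (by linarith) (by linarith)
  set e : ℝ → ℝ := fun r => m * (Real.sin r ^ N - s1 ^ N) - X * (γ - gS N r) * Real.sin r ^ N
    with he
  set e' : ℝ → ℝ := fun r => Real.sin r ^ N * (X * (N / Real.sin r ^ 2 - gS N r ^ 2) -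
    N * (Real.cos r / Real.sin r) * (X * γ - m)) with he'
  have hd : ∀ r, 0 < r → r < π / 2 → HasDerivAt e (e' r) r := by
    intro r hr hr2
    have hs := (sin_pos1 hr hr2).ne'
    have h2 := hasDerivAt_pow_sin (r := r) N hs
    have h3 := hasDerivAt_gS N hr (by linarith)
    have h4 := ((h2.sub_const (s1 ^ N)).const_mul m).fun_sub
      (((h3.const_sub γ).const_mul X).fun_mul h2)
    refine h4.congr_deriv ?_
    simp only [he']
    ring
  have hzero : ∀ r, R₀ ≤ r → r < π / 2 → e r = 0 → 0 < e' r := by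
    intro r hr hr2 hez
    have hr0 : 0 < r := by linarith
    have hs := sin_pos1 hr0 hr2
    have hc := cos_pos1 hr0.le hr2
    set c := Real.cos r / Real.sin r with hcdef
    have hc0 : 0 ≤ c := (div_pos hc hs).le
    have hsc := Real.sin_sq_add_cos_sq r
    have hinv : 1 / Real.sin r ^ 2 = 1 + c ^ 2 := by
      rw [hcdef]
      field_simp
      linarith
    have hs1le : s1 ≤ Real.sin r :=
      Real.sin_le_sin_of_le_of_le_pi_div_two (by linarith) hr2.le hr
    have hc1 : c ≤ 1 / Real.tan R₀ := by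
      rw [hcdef, ← cot_eq hR₀ hR₀', ← hs1]
      have h5 : Real.cos r ≤ Real.cos R₀ :=
        Real.cos_le_cos_of_nonneg_of_le_pi hR₀.le (by linarith) hr
      have h6 : 0 ≤ Real.cos R₀ := (cos_pos1 hR₀.le hR₀').le
      gcongr
    have hN' : (N : ℝ) / Real.sin r ^ 2 = N * (1 + c ^ 2) := by
      rw [← hinv]
      ring
    -- the value of `g` at a zero
    have hu : (s1 / Real.sin r) ^ N ≤ s1 ^ 2 * (1 + c ^ 2) := by
      have h5 : s1 / Real.sin r ≤ 1 := by
        rw [div_le_one hs]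
        exact hs1le
      have h6 : (s1 / Real.sin r) ^ N ≤ (s1 / Real.sin r) ^ 2 :=
        pow_le_pow_of_le_one (by positivity) h5 hN
      have h7 : (s1 / Real.sin r) ^ 2 = s1 ^ 2 * (1 + c ^ 2) := by
        rw [div_pow, ← hinv]
        ring
      linarith
    have hg1 : X * (γ - gS N r) = m * (1 - (s1 / Real.sin r) ^ N) := by
      have hsN : Real.sin r ^ N ≠ 0 := pow_ne_zero N hs.ne'
      simp only [he] at hez
      rw [div_pow]
      field_simp
      linarith
    have hg2 : gS N r ≤ γ - m / X * (1 - s1 ^ 2 * (1 + c ^ 2)) := by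
      have h8 : m * (1 - s1 ^ 2 * (1 + c ^ 2)) ≤ X * (γ - gS N r) := by
        rw [hg1]
        refine mul_le_mul_of_nonneg_left ?_ hm0.le
        linarith
      have h9 : m / X * (1 - s1 ^ 2 * (1 + c ^ 2)) ≤ γ - gS N r := by
        rw [div_mul_eq_mul_div, div_le_iff₀ (by positivity)]
        linarith
      linarith
    have hg0 := gS_pos' N hr0 hr2
    have hE' := hE c hc0 hc1
    have h10 : gS N r ^ 2 ≤ (γ - m / X * (1 - s1 ^ 2 * (1 + c ^ 2))) ^ 2 := by
      gcongr
    have h11 : X * gS N r ^ 2 ≤ X * (γ - m / X * (1 - s1 ^ 2 * (1 + c ^ 2))) ^ 2 :=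
      mul_le_mul_of_nonneg_left h10 hX0.le
    simp only [he']
    refine mul_pos (pow_pos hs N) ?_
    rw [hN']
    have e6 : X * (N * (1 + c ^ 2) - gS N r ^ 2) = N * X * (1 + c ^ 2) - X * gS N r ^ 2 := by ring
    rw [e6]
    linarith
  have he4 : e R₀ = 0 := by
    simp only [he]
    rw [← hs1, ← hγdef]
    ring
  have hnonneg : ∀ b, b < π / 2 → ∀ x ∈ Icc R₀ b, 0 ≤ e x := by
    intro b hb x hx
    have h2 := image_le_of_deriv_right_lt_deriv_boundary (f := fun r => -e r)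
      (f' := fun r => -e' r) (a := R₀) (b := b) (B := fun _ => 0) (B' := fun _ => 0)
      (fun y hy => (hd y (by linarith [hy.1]) (hy.2.trans_lt hb)).continuousAt.neg.continuousWithinAt)
      (fun y hy => (hd y (by linarith [hy.1]) (hy.2.trans hb)).neg.hasDerivWithinAt)
      (by rw [he4]; simp) (fun _ => hasDerivAt_const _ _)
      (fun y hy hy0 => by
        have := hzero y hy.1 (hy.2.trans hb) (by simpa using hy0)
        linarith) hx
    simpa using h2
  have hpos : 0 < e R := by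
    rcases (hnonneg R h1 R ⟨h0.le, le_rfl⟩).eq_or_lt with h | h
    · exfalso
      have h2 := hzero R h0.le h1 h.symm
      have h3 := hd R (by linarith) h1
      -- `e` is negative just to the left of `R`
      have h4 : IsLocalMin e R := by
        have h5 : Ioo R₀ (π / 2) ∈ nhds R := Ioo_mem_nhds h0 h1
        filter_upwards [h5] with y hy
        rw [← h]
        exact hnonneg y hy.2 y ⟨hy.1.le, le_rfl⟩
      have h6 := h4.hasDerivAt_eq_zero h3
      linarith
    · exact h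
  have hsR := sin_pos1 (by linarith : 0 < R) h1
  simp only [he] at hpos
  rw [div_pow]
  have hsN : 0 < Real.sin R ^ N := pow_pos hsR N
  rw [← sub_pos]
  have e7 : m * (1 - s1 ^ N / Real.sin R ^ N) - (γ - gS N R) * X =
      (m * (Real.sin R ^ N - s1 ^ N) - X * (γ - gS N R) * Real.sin R ^ N) / Real.sin R ^ N := by
    field_simp
  rw [e7]
  exact div_pos hpos hsN


/-- `hE` of `large_ineq` in polynomial form -/
theorem hE_of {N : ℕ} {R₀ : ℝ} (hR₀ : 0 < R₀) (hR₀' : R₀ < π / 2) {lam : ℝ}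
    (h : ∀ y : ℝ, 0 ≤ y → y ≤ 1 → 0 < EE N lam (Real.tan R₀ ^ 2) (BS N R₀) y) :
    ∀ c : ℝ, 0 ≤ c → c ≤ 1 / Real.tan R₀ →
      0 < N * (49 / 36) * (1 + c ^ 2) -
        49 / 36 * (gS N R₀ - (gS N R₀ - lam / Real.tan R₀) / (49 / 36) *
          (1 - Real.sin R₀ ^ 2 * (1 + c ^ 2))) ^ 2 -
        N * c * (49 / 36 * gS N R₀ - (gS N R₀ - lam / Real.tan R₀)) := by
  intro c hc hc1
  have hT := tan_pos1 hR₀ hR₀'
  obtain ⟨T, hTe⟩ : ∃ T : ℝ, T = Real.tan R₀ := ⟨_, rfl⟩
  obtain ⟨B, hBe⟩ : ∃ B : ℝ, B = BS N R₀ := ⟨_, rfl⟩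
  have hγ : gS N R₀ = B / T := by
    rw [hBe, hTe, BS, mul_div_assoc, div_self hT.ne', mul_one]
  have hs : Real.sin R₀ ^ 2 = T ^ 2 / (1 + T ^ 2) := by
    rw [eq_div_iff (by positivity), hTe]
    exact sin_sq_tan hR₀ hR₀'
  have h2 := h (c * T) (by rw [hTe]; positivity) (by
    rw [le_div_iff₀ hT] at hc1
    rw [hTe]
    exact hc1)
  rw [← hTe, ← hBe] at h2
  rw [hγ, hs, ← hTe]
  rw [← hTe] at hT
  have e : N * (49 / 36) * (1 + c ^ 2) -
        49 / 36 * (B / T - (B / T - lam / T) / (49 / 36) *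
          (1 - T ^ 2 / (1 + T ^ 2) * (1 + c ^ 2))) ^ 2 -
        N * c * (49 / 36 * (B / T) - (B / T - lam / T)) = EE N lam (T ^ 2) B (c * T) / T ^ 2 := by
    unfold EE
    field_simp
    ring
  rw [e]
  positivity

theorem BS_brackets {N : ℕ} {R : ℝ} (h0 : 0 < R) (h1 : R < π / 2) {l q0 : ℝ}
    (hq : Real.tan R ^ 2 = q0) (hq0 : 0 ≤ q0)
    (hl : l * (((N : ℝ) + 3) * (N + 5) + 2 * (N + 2) * q0) ≤ (N + 1) * (N + 5)) :
    1 + l * q0 ≤ BS N R ∧ BS N R ≤ 1 + ((N : ℝ) + 1) / (N + 3) * q0 := by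
  constructor
  · refine le_trans ?_ (lo2_le_BS N h0 h1)
    rw [hq]
    unfold lo2
    have hD : 0 < ((N : ℝ) + 3) * (N + 5) + 2 * (N + 2) * q0 := by positivity
    have h2 : l * q0 ≤ ((N : ℝ) + 1) * (N + 5) * q0 /
        (((N : ℝ) + 3) * (N + 5) + 2 * (N + 2) * q0) := by
      rw [le_div_iff₀ hD]
      nlinarith [mul_le_mul_of_nonneg_left hl hq0]
    linarith
  · have h2 := BS_le_up1 N h0 h1
    unfold up1 at h2
    rw [hq] at h2
    refine h2.trans (le_of_eq ?_)
    ring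

/-- parameters at the radius `R₀` with `tan² R₀ = qN N` -/
theorem exists_par3 {N : ℕ} (hN : 2 ≤ N) {R : ℝ} (h0 : 0 < R) (h1 : R < π / 2)
    (hq : Real.tan R ^ 2 = qN N) : ∃ lam : ℝ, Par2 N R lam ∧
      ∀ y : ℝ, 0 ≤ y → y ≤ 1 → 0 < EE N lam (Real.tan R ^ 2) (BS N R) y := by
  have h4 : R ≤ π / 4 := le_quarter h1 hq.le
  rcases lt_or_ge N 14 with h | h
  · interval_cases N
    · have hq' : Real.tan R ^ 2 = (1/8) := by simpa [qN] using hq
      refine ⟨_, mk2 (l := (583/1000)) (q0 := (1/8)) (s0 := (1/3)) (U := (43/40)) (by norm_num) h0 h4 par_2 hq'.le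
        (by norm_num) (by norm_num) (by norm_num) (fun σ q B a1 a2 a3 a4 a5 a6 => ?_) (by norm_num)
        (by norm_num) (by norm_num) (by norm_num) (by norm_num), fun y hy hy1 => ?_⟩
      · rw [Nat.cast_ofNat]
        exact PPz_2 a1 a2 a3 a4 a5 (a6.trans (le_of_eq (by norm_num)))
      · obtain ⟨b1, b2⟩ := BS_brackets (N := 2) (l := (583/1000)) h0 h1 hq' (by norm_num) (by norm_num)
        rw [hq', Nat.cast_ofNat]
        exact EE_2 hy hy1 (le_trans (by norm_num) b1) (b2.trans (le_of_eq (by norm_num)))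
    · have hq' : Real.tan R ^ 2 = (1/4) := by simpa [qN] using hq
      refine ⟨_, mk2 (l := (633/1000)) (q0 := (1/4)) (s0 := (9/20)) (U := (7/6)) (by norm_num) h0 h4 par_3 hq'.le
        (by norm_num) (by norm_num) (by norm_num) (fun σ q B a1 a2 a3 a4 a5 a6 => ?_) (by norm_num)
        (by norm_num) (by norm_num) (by norm_num) (by norm_num), fun y hy hy1 => ?_⟩
      · rw [Nat.cast_ofNat]
        exact PPz_3 a1 a2 a3 a4 a5 (a6.trans (le_of_eq (by norm_num)))
      · obtain ⟨b1, b2⟩ := BS_brackets (N := 3) (l := (633/1000)) h0 h1 hq' (by norm_num) (by norm_num)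
        rw [hq', Nat.cast_ofNat]
        exact EE_3 hy hy1 (le_trans (by norm_num) b1) (b2.trans (le_of_eq (by norm_num)))
    · have hq' : Real.tan R ^ 2 = (1/3) := by simpa [qN] using hq
      refine ⟨_, mk2 (l := (671/1000)) (q0 := (1/3)) (s0 := (1/2)) (U := (26/21)) (by norm_num) h0 h4 par_4 hq'.le
        (by norm_num) (by norm_num) (by norm_num) (fun σ q B a1 a2 a3 a4 a5 a6 => ?_) (by norm_num)
        (by norm_num) (by norm_num) (by norm_num) (by norm_num), fun y hy hy1 => ?_⟩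
      · rw [Nat.cast_ofNat]
        exact PPz_4 a1 a2 a3 a4 a5 (a6.trans (le_of_eq (by norm_num)))
      · obtain ⟨b1, b2⟩ := BS_brackets (N := 4) (l := (671/1000)) h0 h1 hq' (by norm_num) (by norm_num)
        rw [hq', Nat.cast_ofNat]
        exact EE_4 hy hy1 (le_trans (by norm_num) b1) (b2.trans (le_of_eq (by norm_num)))
    · have hq' : Real.tan R ^ 2 = (1/2) := by simpa [qN] using hq
      refine ⟨_, mk2 (l := (689/1000)) (q0 := (1/2)) (s0 := (3/5)) (U := (11/8)) (by norm_num) h0 h4 par_5 hq'.le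
        (by norm_num) (by norm_num) (by norm_num) (fun σ q B a1 a2 a3 a4 a5 a6 => ?_) (by norm_num)
        (by norm_num) (by norm_num) (by norm_num) (by norm_num), fun y hy hy1 => ?_⟩
      · rw [Nat.cast_ofNat]
        exact PPz_5 a1 a2 a3 a4 a5 (a6.trans (le_of_eq (by norm_num)))
      · obtain ⟨b1, b2⟩ := BS_brackets (N := 5) (l := (689/1000)) h0 h1 hq' (by norm_num) (by norm_num)
        rw [hq', Nat.cast_ofNat]
        exact EE_5 hy hy1 (le_trans (by norm_num) b1) (b2.trans (le_of_eq (by norm_num)))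
    · have hq' : Real.tan R ^ 2 = (1/2) := by simpa [qN] using hq
      refine ⟨_, mk2 (l := (719/1000)) (q0 := (1/2)) (s0 := (3/5)) (U := (25/18)) (by norm_num) h0 h4 par_6 hq'.le
        (by norm_num) (by norm_num) (by norm_num) (fun σ q B a1 a2 a3 a4 a5 a6 => ?_) (by norm_num)
        (by norm_num) (by norm_num) (by norm_num) (by norm_num), fun y hy hy1 => ?_⟩
      · rw [Nat.cast_ofNat]
        exact PPz_6 a1 a2 a3 a4 a5 (a6.trans (le_of_eq (by norm_num)))
      · obtain ⟨b1, b2⟩ := BS_brackets (N := 6) (l := (719/1000)) h0 h1 hq' (by norm_num) (by norm_num)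
        rw [hq', Nat.cast_ofNat]
        exact EE_6 hy hy1 (le_trans (by norm_num) b1) (b2.trans (le_of_eq (by norm_num)))
    · have hq' : Real.tan R ^ 2 = (1/2) := by simpa [qN] using hq
      refine ⟨_, mk2 (l := (93/125)) (q0 := (1/2)) (s0 := (3/5)) (U := (7/5)) (by norm_num) h0 h4 par_7 hq'.le
        (by norm_num) (by norm_num) (by norm_num) (fun σ q B a1 a2 a3 a4 a5 a6 => ?_) (by norm_num)
        (by norm_num) (by norm_num) (by norm_num) (by norm_num), fun y hy hy1 => ?_⟩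
      · rw [Nat.cast_ofNat]
        exact PPz_7 a1 a2 a3 a4 a5 (a6.trans (le_of_eq (by norm_num)))
      · obtain ⟨b1, b2⟩ := BS_brackets (N := 7) (l := (93/125)) h0 h1 hq' (by norm_num) (by norm_num)
        rw [hq', Nat.cast_ofNat]
        exact EE_7 hy hy1 (le_trans (by norm_num) b1) (b2.trans (le_of_eq (by norm_num)))
    · have hq' : Real.tan R ^ 2 = (1/2) := by simpa [qN] using hq
      refine ⟨_, mk2 (l := (191/250)) (q0 := (1/2)) (s0 := (3/5)) (U := (31/22)) (by norm_num) h0 h4 par_8 hq'.le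
        (by norm_num) (by norm_num) (by norm_num) (fun σ q B a1 a2 a3 a4 a5 a6 => ?_) (by norm_num)
        (by norm_num) (by norm_num) (by norm_num) (by norm_num), fun y hy hy1 => ?_⟩
      · rw [Nat.cast_ofNat]
        exact PPz_8 a1 a2 a3 a4 a5 (a6.trans (le_of_eq (by norm_num)))
      · obtain ⟨b1, b2⟩ := BS_brackets (N := 8) (l := (191/250)) h0 h1 hq' (by norm_num) (by norm_num)
        rw [hq', Nat.cast_ofNat]
        exact EE_8 hy hy1 (le_trans (by norm_num) b1) (b2.trans (le_of_eq (by norm_num)))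
    · have hq' : Real.tan R ^ 2 = (1/2) := by simpa [qN] using hq
      refine ⟨_, mk2 (l := (391/500)) (q0 := (1/2)) (s0 := (3/5)) (U := (17/12)) (by norm_num) h0 h4 par_9 hq'.le
        (by norm_num) (by norm_num) (by norm_num) (fun σ q B a1 a2 a3 a4 a5 a6 => ?_) (by norm_num)
        (by norm_num) (by norm_num) (by norm_num) (by norm_num), fun y hy hy1 => ?_⟩
      · rw [Nat.cast_ofNat]
        exact PPz_9 a1 a2 a3 a4 a5 (a6.trans (le_of_eq (by norm_num)))
      · obtain ⟨b1, b2⟩ := BS_brackets (N := 9) (l := (391/500)) h0 h1 hq' (by norm_num) (by norm_num)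
        rw [hq', Nat.cast_ofNat]
        exact EE_9 hy hy1 (le_trans (by norm_num) b1) (b2.trans (le_of_eq (by norm_num)))
    · have hq' : Real.tan R ^ 2 = (1/2) := by simpa [qN] using hq
      refine ⟨_, mk2 (l := (797/1000)) (q0 := (1/2)) (s0 := (3/5)) (U := (37/26)) (by norm_num) h0 h4 par_10 hq'.le
        (by norm_num) (by norm_num) (by norm_num) (fun σ q B a1 a2 a3 a4 a5 a6 => ?_) (by norm_num)
        (by norm_num) (by norm_num) (by norm_num) (by norm_num), fun y hy hy1 => ?_⟩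
      · rw [Nat.cast_ofNat]
        exact PPz_10 a1 a2 a3 a4 a5 (a6.trans (le_of_eq (by norm_num)))
      · obtain ⟨b1, b2⟩ := BS_brackets (N := 10) (l := (797/1000)) h0 h1 hq' (by norm_num) (by norm_num)
        rw [hq', Nat.cast_ofNat]
        exact EE_10 hy hy1 (le_trans (by norm_num) b1) (b2.trans (le_of_eq (by norm_num)))
    · have hq' : Real.tan R ^ 2 = (1/2) := by simpa [qN] using hq
      refine ⟨_, mk2 (l := (81/100)) (q0 := (1/2)) (s0 := (3/5)) (U := (10/7)) (by norm_num) h0 h4 par_11 hq'.le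
        (by norm_num) (by norm_num) (by norm_num) (fun σ q B a1 a2 a3 a4 a5 a6 => ?_) (by norm_num)
        (by norm_num) (by norm_num) (by norm_num) (by norm_num), fun y hy hy1 => ?_⟩
      · rw [Nat.cast_ofNat]
        exact PPz_11 a1 a2 a3 a4 a5 (a6.trans (le_of_eq (by norm_num)))
      · obtain ⟨b1, b2⟩ := BS_brackets (N := 11) (l := (81/100)) h0 h1 hq' (by norm_num) (by norm_num)
        rw [hq', Nat.cast_ofNat]
        exact EE_11 hy hy1 (le_trans (by norm_num) b1) (b2.trans (le_of_eq (by norm_num)))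
    · have hq' : Real.tan R ^ 2 = (1/2) := by simpa [qN] using hq
      refine ⟨_, mk2 (l := (821/1000)) (q0 := (1/2)) (s0 := (3/5)) (U := (43/30)) (by norm_num) h0 h4 par_12 hq'.le
        (by norm_num) (by norm_num) (by norm_num) (fun σ q B a1 a2 a3 a4 a5 a6 => ?_) (by norm_num)
        (by norm_num) (by norm_num) (by norm_num) (by norm_num), fun y hy hy1 => ?_⟩
      · rw [Nat.cast_ofNat]
        exact PPz_12 a1 a2 a3 a4 a5 (a6.trans (le_of_eq (by norm_num)))
      · obtain ⟨b1, b2⟩ := BS_brackets (N := 12) (l := (821/1000)) h0 h1 hq' (by norm_num) (by norm_num)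
        rw [hq', Nat.cast_ofNat]
        exact EE_12 hy hy1 (le_trans (by norm_num) b1) (b2.trans (le_of_eq (by norm_num)))
    · have hq' : Real.tan R ^ 2 = (1/2) := by simpa [qN] using hq
      refine ⟨_, mk2 (l := (831/1000)) (q0 := (1/2)) (s0 := (3/5)) (U := (23/16)) (by norm_num) h0 h4 par_13 hq'.le
        (by norm_num) (by norm_num) (by norm_num) (fun σ q B a1 a2 a3 a4 a5 a6 => ?_) (by norm_num)
        (by norm_num) (by norm_num) (by norm_num) (by norm_num), fun y hy hy1 => ?_⟩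
      · rw [Nat.cast_ofNat]
        exact PPz_13 a1 a2 a3 a4 a5 (a6.trans (le_of_eq (by norm_num)))
      · obtain ⟨b1, b2⟩ := BS_brackets (N := 13) (l := (831/1000)) h0 h1 hq' (by norm_num) (by norm_num)
        rw [hq', Nat.cast_ofNat]
        exact EE_13 hy hy1 (le_trans (by norm_num) b1) (b2.trans (le_of_eq (by norm_num)))
  · have hq' : Real.tan R ^ 2 = 1 / 2 := by
      rw [hq, qN, if_neg (by omega), if_neg (by omega), if_neg (by omega)]
    refine ⟨_, par2_big h h0 h4 hq'.le, fun y hy hy1 => ?_⟩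
    rw [hq']
    refine EE_big (by exact_mod_cast h) hy hy1 (BS_ge_one N h0 h1) ?_
    have h2 := BS_le_up1 N h0 h1
    unfold up1 at h2
    rw [hq'] at h2
    refine h2.trans ?_
    have hN0 : (0 : ℝ) ≤ N := Nat.cast_nonneg N
    have : ((N : ℝ) + 1) * (1 / 2) / (N + 3) ≤ 1 / 2 := by
      rw [div_le_iff₀ (by linarith)]
      nlinarith
    linarith

theorem qN_pos (N : ℕ) : 0 < qN N := by
  unfold qN
  split_ifs <;> norm_num

/-- the profile of the ball of radius `R₀`, bounded by `49/36`, and the comparison of the balls -/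
theorem exists_prof_at {N : ℕ} (hN : 2 ≤ N) {R₀ : ℝ} (h0 : 0 < R₀) (h1 : R₀ < π / 2)
    (hq : Real.tan R₀ ^ 2 = qN N) {M : ℝ} (hM : π / 2 < M) (hM' : M < π) :
    ∃ (m κ r₀ : ℝ) (H : ℝ → ℝ), Prof2 N R₀ (gS N R₀) m κ r₀ M H ∧
      (∀ t ∈ Icc 0 M, Fp H t ^ 2 ≤ 49 / 36) ∧
      ∀ R ∈ Ioo R₀ (π / 2),
        (gS N R₀ - gS N R) * (49 / 36) < m * (1 - (Real.sin R₀ / Real.sin R) ^ N) := by
  have hpi := Real.pi_pos
  obtain ⟨lam, P, hEE⟩ := exists_par3 hN h0 h1 hq
  have h4 := le_quarter h1 hq.le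
  obtain ⟨κ, r₀, H, h, hin, hout, hone⟩ := prof2_of_par hN h0 h4 P hM hM'
  refine ⟨_, κ, r₀, H, h, fun t ht => ?_, fun R hR =>
    large_ineq hN h0 h1 h.m_pos (by norm_num) (hE_of h0 h1 hEE) hR.1 hR.2⟩
  have hT0 := tan_pos1 h0 h1
  rcases le_or_gt t R₀ with h2 | h2
  · rw [hin t ⟨ht.1, h2⟩]
    have hf := fS_pos N (r := R₀) h0 (by linarith)
    rcases ht.1.eq_or_lt with h3 | h3
    · rw [← h3]
      have : fS N 0 = 0 := by
        unfold fS
        rw [VS_zero, zero_div]
      rw [this]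
      norm_num
    · have h4 := fS_pos N (r := t) h3 (by linarith)
      have h5 : fS N t ≤ fS N R₀ :=
        (fS_strictMono N).monotoneOn ⟨h3, by linarith⟩ ⟨by linarith, by linarith⟩ h2
      have h6 : fS N t / fS N R₀ ≤ 1 := by
        rw [div_le_one hf]
        exact h5
      have h7 : 0 ≤ fS N t / fS N R₀ := by positivity
      nlinarith
  · rcases le_or_gt t (π / 2) with h3 | h3
    · rw [hout t ⟨h2.le, h3⟩]
      have hs : 0 < Real.sin t := Real.sin_pos_of_pos_of_lt_pi (by linarith) (by linarith)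
      have hc : 0 ≤ Real.cos t := Real.cos_nonneg_of_mem_Icc ⟨by linarith, h3⟩
      obtain ⟨y, hy⟩ : ∃ y : ℝ, y = Real.tan R₀ * (Real.cos t / Real.sin t) := ⟨_, rfl⟩
      have hy0 : 0 ≤ y := by
        rw [hy]
        positivity
      have hy1 : y ≤ 1 := by
        have h5 : Real.cos t / Real.sin t ≤ Real.cos R₀ / Real.sin R₀ := by
          have h6 : Real.cos t ≤ Real.cos R₀ :=
            Real.cos_le_cos_of_nonneg_of_le_pi h0.le (by linarith) h2.le
          have h7 : Real.sin R₀ ≤ Real.sin t :=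
            Real.sin_le_sin_of_le_of_le_pi_div_two (by linarith) h3 h2.le
          have h8 : 0 ≤ Real.cos R₀ := (cos_pos1 h0.le h1).le
          have h9 := sin_pos1 h0 h1
          gcongr
        rw [cot_eq h0 h1] at h5
        calc y = Real.tan R₀ * (Real.cos t / Real.sin t) := hy
          _ ≤ Real.tan R₀ * (1 / Real.tan R₀) := by gcongr
          _ = 1 := mul_one_div_cancel hT0.ne'
      have hβ1 : BS N R₀ / (1 + Real.tan R₀ ^ 2) ≤ 1 := by
        rw [div_le_one (by positivity)]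
        have h5 := BS_le_up1 N h0 h1
        unfold up1 at h5
        have hN0 : (0 : ℝ) ≤ N := Nat.cast_nonneg N
        have h6 : ((N : ℝ) + 1) * Real.tan R₀ ^ 2 / (N + 3) ≤ Real.tan R₀ ^ 2 := by
          rw [div_le_iff₀ (by linarith)]
          nlinarith [sq_nonneg (Real.tan R₀)]
        linarith
      have hβ0 : 0 ≤ BS N R₀ / (1 + Real.tan R₀ ^ 2) := by
        have := BS_ge_one N h0 h1
        positivity
      unfold Gf
      rw [← hy]
      have e1 : (1 - y) * (1 - 4 / 2 * (1 - y) + 3 / 3 * (1 - y) ^ 2) = (1 - y) * y ^ 2 := by ring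
      rw [e1]
      have h5 : (1 - y) * y ^ 2 ≤ 1 / 6 := by
        nlinarith [mul_nonneg (sq_nonneg (y - 2 / 3)) (by linarith : (0 : ℝ) ≤ y + 1 / 3)]
      have h6 : 0 ≤ (1 - y) * y ^ 2 := mul_nonneg (by linarith) (sq_nonneg _)
      have h7 : BS N R₀ / (1 + Real.tan R₀ ^ 2) * ((1 - y) * y ^ 2) ≤ 1 / 6 :=
        (mul_le_of_le_one_left h6 hβ1).trans h5
      have h8 : 0 ≤ BS N R₀ / (1 + Real.tan R₀ ^ 2) * ((1 - y) * y ^ 2) := mul_nonneg hβ0 h6
      nlinarith
    · rw [hone t ⟨h3.le, ht.2⟩]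
      norm_num

end Pool.Agent.H32.SZ
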